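import Pool.Agent.H525.MV.Stm
import Pool.Graph.R_pool_sql_team_seeded_63374d34.N455.HT.Fld

set_option autoImplicit false
set_option linter.all false

/-! # Lang-Weil for hypersurfaces from the theorem for models (helper935) -/

namespace Pool.Agent.H935.MV

open Finset NumberField MvPolynomial
open Pool.Agent.H525.MV
open Pool.Agent.R410.LW (Landau)

open scoped Classical

variable {ι : Type} [Fintype ι]

/-- the coordinate ring -/
abbrev Q (F : MvPolynomial ι ℤ) : Type := MvPolynomial ι ℤ ⧸ (Ideal.span {F} : Ideal (MvPolynomial ι ℤ))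

theorem mk_zero_iff (F q : MvPolynomial ι ℤ) :
    (Ideal.Quotient.mk (Ideal.span {F}) q : Q F) = 0 ↔ F ∣ q := by
  rw [Ideal.Quotient.eq_zero_iff_mem, Ideal.mem_span_singleton]

theorem Q_dom (F : MvPolynomial ι ℤ) (hF : Irreducible F) : IsDomain (Q F) := by
  have hp : Prime F := UniqueFactorizationMonoid.irreducible_iff_prime.1 hF
  exact (Ideal.Quotient.isDomain_iff_prime (Ideal.span {F})).2
      ((Ideal.span_singleton_prime hp.ne_zero).2 hp)

/-- a variable which occurs -/
theorem exists_var (F : MvPolynomial ι ℤ) (hd : 0 < F.totalDegree) : ∃ i, 0 < degreeOf i F := by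
  by_contra h
  push Not at h
  have h1 : F.totalDegree ≤ 0 := by
    unfold MvPolynomial.totalDegree
    apply Finset.sup_le
    intro s hs
    have h2 : ∀ i, s i = 0 := by
      intro i
      have h3 := MvPolynomial.monomial_le_degreeOf i hs
      have h4 := h i
      omega
    simp [Finsupp.sum, h2]
  omega

variable (i₀ : ι)

/-- the other variables -/
abbrev J (i₀ : ι) : Type := {j : ι // j ≠ i₀}

theorem card_J : Fintype.card (J i₀) = Fintype.card ι - 1 := by
  rw [Fintype.card_subtype_compl, Fintype.card_subtype_eq]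

/-- the inclusion of the polynomials in the other variables -/
noncomputable def emb (F : MvPolynomial ι ℤ) : MvPolynomial (J i₀) ℤ →+* Q F :=
  (Ideal.Quotient.mk (Ideal.span {F})).comp (rename (Subtype.val : J i₀ → ι)).toRingHom

theorem emb_apply (F : MvPolynomial ι ℤ) (g : MvPolynomial (J i₀) ℤ) :
    emb i₀ F g = Ideal.Quotient.mk (Ideal.span {F}) (rename (Subtype.val : J i₀ → ι) g) := rfl

theorem deg_rename (g : MvPolynomial (J i₀) ℤ) :
    degreeOf i₀ (rename (Subtype.val : J i₀ → ι) g) = 0 := by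
  by_contra h
  have h1 : i₀ ∈ (rename (Subtype.val : J i₀ → ι) g).vars := by
    rw [MvPolynomial.vars_def, Multiset.mem_toFinset]
    rw [MvPolynomial.degreeOf_def] at h
    exact Multiset.count_ne_zero.1 h
  have h2 := MvPolynomial.vars_rename (Subtype.val : J i₀ → ι) g h1
  rw [Finset.mem_image] at h2
  obtain ⟨j, -, hj⟩ := h2
  exact j.2 hj

theorem emb_inj (F : MvPolynomial ι ℤ) (hF : F ≠ 0) (hi : 0 < degreeOf i₀ F) :
    Function.Injective (emb i₀ F) := by
  rw [injective_iff_map_eq_zero]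
  intro g hg
  rw [emb_apply, mk_zero_iff] at hg
  by_contra hne
  have h1 : rename (Subtype.val : J i₀ → ι) g ≠ 0 := by
    intro h
    exact hne ((rename_injective _ Subtype.val_injective) (by rw [h, map_zero]))
  obtain ⟨q, hq⟩ := hg
  have hq0 : q ≠ 0 := by
    rintro rfl
    rw [mul_zero] at hq
    exact h1 hq
  have h2 := deg_rename i₀ g
  rw [hq, MvPolynomial.degreeOf_mul_eq hF hq0] at h2
  omega

/-- `F` as a polynomial in `X i₀` -/
noncomputable def uni (F : MvPolynomial ι ℤ) : Polynomial (MvPolynomial (J i₀) ℤ) :=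
  MvPolynomial.optionEquivLeft ℤ (J i₀) (rename (Equiv.optionSubtypeNe i₀).symm F)

theorem uni_ne (F : MvPolynomial ι ℤ) (hF : F ≠ 0) : uni i₀ F ≠ 0 := by
  unfold uni
  intro h
  rw [map_eq_zero_iff _ (MvPolynomial.optionEquivLeft ℤ (J i₀)).injective,
    map_eq_zero_iff _ (rename_injective _ (Equiv.optionSubtypeNe i₀).symm.injective)] at h
  exact hF h

theorem uni_eval (F P : MvPolynomial ι ℤ) :
    Polynomial.eval₂ (emb i₀ F) (Ideal.Quotient.mk (Ideal.span {F}) (X i₀)) (uni i₀ P) =
      Ideal.Quotient.mk (Ideal.span {F}) P := by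
  have h : ((Polynomial.eval₂RingHom (emb i₀ F) (Ideal.Quotient.mk (Ideal.span {F}) (X i₀))).comp
      ((MvPolynomial.optionEquivLeft ℤ (J i₀)).toRingEquiv.toRingHom.comp
        (rename (Equiv.optionSubtypeNe i₀).symm).toRingHom)) =
      Ideal.Quotient.mk (Ideal.span {F}) := by
    apply MvPolynomial.ringHom_ext
    · intro r
      simp
    · intro i
      by_cases hi : i = i₀
      · subst hi
        simp
      · have h1 : (Equiv.optionSubtypeNe i₀).symm i = some ⟨i, hi⟩ := by
          rw [Equiv.optionSubtypeNe_symm_of_ne hi]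
        simp [h1, emb_apply]
  exact congrArg (fun f => f P) h

theorem Q_alg (F : MvPolynomial ι ℤ) (hF : Irreducible F) :
    @Algebra.IsAlgebraic (MvPolynomial (J i₀) ℤ) (Q F) _ _ (emb i₀ F).toAlgebra := by
  letI := (emb i₀ F).toAlgebra
  have hd := Q_dom F hF
  have hX : ∀ i, IsAlgebraic (MvPolynomial (J i₀) ℤ) (Ideal.Quotient.mk (Ideal.span {F}) (X i) : Q F) := by
    intro i
    by_cases hi : i = i₀
    · subst hi
      refine ⟨uni i F, uni_ne i F hF.ne_zero, ?_⟩
      have h1 := uni_eval i F F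
      rw [(mk_zero_iff F F).2 dvd_rfl] at h1
      exact h1
    · have h1 : (Ideal.Quotient.mk (Ideal.span {F}) (X i) : Q F) =
          algebraMap (MvPolynomial (J i₀) ℤ) (Q F) (X ⟨i, hi⟩) := by
        show _ = emb i₀ F (X ⟨i, hi⟩)
        rw [emb_apply, rename_X]
      rw [h1]
      exact isAlgebraic_algebraMap _
  refine ⟨fun a => ?_⟩
  obtain ⟨q, rfl⟩ := Ideal.Quotient.mk_surjective a
  induction q using MvPolynomial.induction_on with
  | C r =>
    have h1 : (Ideal.Quotient.mk (Ideal.span {F}) (C r) : Q F) =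
          algebraMap (MvPolynomial (J i₀) ℤ) (Q F) (C r) := by
      show _ = emb i₀ F (C r)
      rw [emb_apply, rename_C]
    rw [h1]
    exact isAlgebraic_algebraMap _
  | add p q hp hq =>
    rw [map_add]
    exact hp.add hq
  | mul_X p i hp =>
    rw [map_mul]
    exact hp.mul (hX i)

/-- the model -/
theorem model (F : MvPolynomial ι ℤ) (hF : Irreducible F) (hd : 0 < F.totalDegree) :
    ∃ (L : Type) (_ : Field L) (_ : NumberField L), Landau (Q F) (Fintype.card ι - 1) L := by
  obtain ⟨i₀, hi⟩ := exists_var F hd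
  letI := (emb i₀ F).toAlgebra
  have hD := Q_dom F hF
  have halg : Algebra.IsAlgebraic (MvPolynomial (J i₀) ℤ) (Q F) := Q_alg i₀ F hF
  have h2 : Algebra.IsAlgebraic (Q F) (FractionRing (Q F)) :=
    IsLocalization.isAlgebraic (FractionRing (Q F)) (nonZeroDivisors (Q F))
  have h3 : Algebra.IsAlgebraic (MvPolynomial (J i₀) ℤ) (FractionRing (Q F)) :=
    Algebra.IsAlgebraic.trans (MvPolynomial (J i₀) ℤ) (Q F) (FractionRing (Q F))
  have hinj : Function.Injective (algebraMap (MvPolynomial (J i₀) ℤ) (FractionRing (Q F))) := by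
    rw [IsScalarTower.algebraMap_eq (MvPolynomial (J i₀) ℤ) (Q F) (FractionRing (Q F))]
    exact (IsFractionRing.injective (Q F) (FractionRing (Q F))).comp
      (emb_inj i₀ F hF.ne_zero hi)
  have h4 : CharZero (FractionRing (Q F)) := charZero_of_injective_algebraMap hinj
  have h5 : @Algebra.FiniteType ℤ (Q F) _ _ _ :=
      Algebra.FiniteType.of_surjective (Ideal.Quotient.mkₐ ℤ (Ideal.span {F}))
        (Ideal.Quotient.mkₐ_surjective ℤ (Ideal.span {F}))
  have hft := Pool.Agent.R410.LW.ft_int _ h5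
  rw [← card_J i₀]
  exact Pool.Agent.N455.HT.landau_model (Q F) (FractionRing (Q F)) hinj

/-- the points of the model -/
noncomputable def pts (F t : MvPolynomial ι ℤ) (p : ℕ) [Fact p.Prime] :
    {φ : Q F →+* ZMod p // φ (Ideal.Quotient.mk (Ideal.span {F}) t) ≠ 0} ≃
      {x : ι → ZMod p // eval x (red F p) = 0 ∧ eval x (red t p) ≠ 0} := by
  have key : ∀ (φ : Q F →+* ZMod p) (q : MvPolynomial ι ℤ),
      eval (fun i => φ (Ideal.Quotient.mk (Ideal.span {F}) (X i))) (red q p) =
        φ (Ideal.Quotient.mk (Ideal.span {F}) q) := by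
    intro φ q
    have h : (eval (fun i => φ (Ideal.Quotient.mk (Ideal.span {F}) (X i)))).comp
        (MvPolynomial.map (Int.castRingHom (ZMod p))) = φ.comp (Ideal.Quotient.mk (Ideal.span {F})) := by
      apply MvPolynomial.ringHom_ext
      · intro r
        simp
      · intro i
        simp
    exact congrArg (fun f => f q) h
  refine
    { toFun := fun φ => ⟨fun i => φ.1 (Ideal.Quotient.mk (Ideal.span {F}) (X i)), ?_, ?_⟩
      invFun := fun x => ⟨Ideal.Quotient.lift (Ideal.span {F})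
        ((eval x.1).comp (MvPolynomial.map (Int.castRingHom (ZMod p)))) ?_, ?_⟩
      left_inv := ?_
      right_inv := ?_ }
  · rw [key, (mk_zero_iff F F).2 dvd_rfl, map_zero]
  · rw [key]
    exact φ.2
  · intro a ha
    rw [Ideal.mem_span_singleton] at ha
    obtain ⟨b, rfl⟩ := ha
    rw [map_mul]
    have h1 : ((eval x.1).comp (MvPolynomial.map (Int.castRingHom (ZMod p)))) F = 0 := x.2.1
    rw [h1, zero_mul]
  · rw [Ideal.Quotient.lift_mk]
    exact x.2.2
  · intro φ
    apply Subtype.ext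
    apply Ideal.Quotient.ringHom_ext
    apply MvPolynomial.ringHom_ext
    · intro r
      simp
    · intro i
      simp
  · intro x
    apply Subtype.ext
    funext i
    simp

theorem split (F t : MvPolynomial ι ℤ) (p : ℕ) [Fact p.Prime] :
    zc F p = Nat.card {x : ι → ZMod p // eval x (red F p) = 0 ∧ eval x (red t p) ≠ 0} +
      Nat.card {x : ι → ZMod p // eval x (red F p) = 0 ∧ eval x (red t p) = 0} := by
  unfold zc
  rw [Nat.card_eq_fintype_card, Nat.card_eq_fintype_card, Nat.card_eq_fintype_card,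
    Fintype.card_subtype, Fintype.card_subtype, Fintype.card_subtype]
  rw [← Finset.card_union_of_disjoint]
  · congr 1
    ext x
    simp only [mem_filter, mem_univ, true_and, mem_union]
    tauto
  · rw [Finset.disjoint_left]
    intro x hx hx'
    rw [mem_filter] at hx hx'
    exact hx.2.2 hx'.2.2

theorem t_LW : Pool.Agent.H525.MV.S_COD → Pool.Agent.H525.MV.S_LW := by
  intro hcod ι _ F hF hd
  obtain ⟨L, iL, nL, s, hs, hland⟩ := model F hF hd
  obtain ⟨C, N, hC, hN, hland⟩ := hland s hs dvd_rfl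
  obtain ⟨t, rfl⟩ := Ideal.Quotient.mk_surjective s
  have ht : ¬ F ∣ t := fun h => hs ((mk_zero_iff F t).2 h)
  obtain ⟨C', m, hC', hcod⟩ := hcod ι F hF hd t.totalDegree
  -- the bound of the coefficients
  obtain ⟨H, hH1, hH⟩ : ∃ H : ℝ, 1 ≤ H ∧ ∀ s, |((MvPolynomial.coeff s t : ℤ) : ℝ)| ≤ H := by
    refine ⟨1 + ∑ s ∈ t.support, |((MvPolynomial.coeff s t : ℤ) : ℝ)|,
      by have := Finset.sum_nonneg (s := t.support)
            (fun s _ => abs_nonneg ((MvPolynomial.coeff s t : ℤ) : ℝ)); linarith, ?_⟩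
    intro s
    by_cases hs : s ∈ t.support
    · have h1 := Finset.single_le_sum (f := fun s => |((MvPolynomial.coeff s t : ℤ) : ℝ)|)
        (fun s _ => abs_nonneg _) hs
      linarith
    · rw [MvPolynomial.notMem_support_iff.1 hs]
      have := Finset.sum_nonneg (s := t.support)
            (fun s _ => abs_nonneg ((MvPolynomial.coeff s t : ℤ) : ℝ))
      simp only [Int.cast_zero, abs_zero]
      linarith
  have hcod := hcod t le_rfl ht H hH1 hH
  set n := Fintype.card ι - 1 with hn
  set V : ℕ → ℝ := fun p =>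
    |(zc F p : ℝ) - Nat.card (𝓞 L →+* ZMod p) * (p : ℝ) ^ n| * Real.sqrt p with hV
  have hV0 : ∀ p, 0 ≤ V p := fun p => mul_nonneg (abs_nonneg _) (Real.sqrt_nonneg _)
  set B : ℕ := N + ⌈C' * H ^ m⌉₊ with hB
  set S : ℝ := ∑ p ∈ range (B + 1), V p with hS
  have hS0 : 0 ≤ S := Finset.sum_nonneg (fun p _ => hV0 p)
  refine ⟨L, iL, nL, C + C' + S, by linarith, ?_⟩
  intro p hp
  have hfp : Fact p.Prime := ⟨hp⟩
  have hp1 : (1:ℝ) ≤ p := by exact_mod_cast hp.one_le
  have hpn : (1:ℝ) ≤ (p:ℝ) ^ n := one_le_pow₀ hp1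
  show V p ≤ (C + C' + S) * (p:ℝ) ^ n
  by_cases hsm : p ≤ B
  · have h1 : V p ≤ S := Finset.single_le_sum (f := V) (fun p _ => hV0 p)
      (mem_range.2 (by omega))
    nlinarith [mul_nonneg hS0 (sub_nonneg.2 hpn), mul_nonneg (by linarith : (0:ℝ) ≤ C + C')
      (by linarith : (0:ℝ) ≤ (p:ℝ) ^ n)]
  · push Not at hsm
    have hN' : ((N : ℕ) : ZMod p) ≠ 0 := by
      rw [Ne, ZMod.natCast_eq_zero_iff]
      intro h
      have := Nat.le_of_dvd (Nat.pos_of_ne_zero hN) h
      omega
    have h1 := hland (ZMod p) hN'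
    rw [Nat.card_congr (pts F t p), Nat.card_zmod] at h1
    have h2 := hcod p hp (by
      have h3 : (⌈C' * H ^ m⌉₊ : ℕ) < p := by omega
      exact (Nat.le_ceil _).trans_lt (by exact_mod_cast h3))
    rw [hV]
    simp only
    rw [split F t p]
    set a := Nat.card {x : ι → ZMod p // eval x (red F p) = 0 ∧ eval x (red t p) ≠ 0} with ha
    set b := Nat.card {x : ι → ZMod p // eval x (red F p) = 0 ∧ eval x (red t p) = 0} with hb
    push_cast
    have h4 : |((a:ℝ) + b) - Nat.card (𝓞 L →+* ZMod p) * (p : ℝ) ^ n| ≤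
        |(a:ℝ) - Nat.card (𝓞 L →+* ZMod p) * (p : ℝ) ^ n| + b := by
      have h5 : ((a:ℝ) + b) - Nat.card (𝓞 L →+* ZMod p) * (p : ℝ) ^ n =
        ((a:ℝ) - Nat.card (𝓞 L →+* ZMod p) * (p : ℝ) ^ n) + b := by ring
      rw [h5]
      refine (abs_add_le _ _).trans ?_
      rw [abs_of_nonneg (Nat.cast_nonneg b : (0:ℝ) ≤ b)]
    have h6 : Real.sqrt p ≤ p := by
      rw [Real.sqrt_le_left (by linarith)]
      nlinarith
    have hb0 : (0:ℝ) ≤ b := Nat.cast_nonneg b
    have h7 := mul_le_mul_of_nonneg_right h4 (Real.sqrt_nonneg (p:ℝ))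
    have h8 : (b:ℝ) * Real.sqrt p ≤ C' * (p:ℝ) ^ n := by
      refine le_trans (mul_le_mul_of_nonneg_left h6 hb0) ?_
      rw [mul_comm]
      exact h2
    nlinarith [mul_nonneg hS0 (by linarith : (0:ℝ) ≤ (p:ℝ) ^ n)]

end Pool.Agent.H935.MV
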